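import Pool.Agent.Helper21.W4.St1

/-! Module ALb of project W4: points of the cap region. -/

set_option autoImplicit false

namespace Pool.Agent.Helper67.W4

open Pool.Agent.Helper21.W4 Finset

theorem hALb : StALb := by
  intro B h ci cj ck hA h1 h2 h3 hC
  have hR : ∀ p q, inR h ci cj ck p q → h p q = ck := by
    intro p q hpq
    obtain ⟨a, b, c, d, e⟩ := hpq
    rw [(hC p q c).1 ⟨a, b⟩]
    omega
  set L := (range B ×ˢ range B).filter
      (fun x : ℕ × ℕ => 2 ≤ h (x.1 + 1) (x.2 + 1) ∧ inR h ci cj ck (x.1 + 1) (x.2 + 1)) with hL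
  set N := (range B ×ˢ range B).filter
      (fun x : ℕ × ℕ => (h (x.1 + 1) x.2 = h x.1 x.2 ∨ h x.1 (x.2 + 1) = h x.1 x.2) ∧
        2 ≤ h x.1 x.2 ∧ inR h ci cj ck x.1 x.2) with hN
  have eL : ∑ x ∈ L, h (x.1 + 1) (x.2 + 1) = L.card * ck := by
    rw [Finset.sum_const_nat]
    intro x hx
    exact hR _ _ (Finset.mem_filter.1 hx).2.2
  have eN : ∑ x ∈ N, h x.1 x.2 = N.card * ck := by
    rw [Finset.sum_const_nat]
    intro x hx
    exact hR _ _ (Finset.mem_filter.1 hx).2.2.2
  rw [eL, eN]
  unfold loss
  by_cases hk : ck = 1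
  · have : L = ∅ := by
      apply Finset.eq_empty_of_forall_notMem
      intro x hx
      have h4 := (Finset.mem_filter.1 hx).2
      have h5 := hR _ _ h4.2
      omega
    rw [this]
    simp
  · rw [if_neg hk]
    unfold rr
    set M := (range B ×ˢ range B).filter
      (fun x : ℕ × ℕ => inR h ci cj ck x.1 x.2 ∧ ¬ inR h ci cj ck (x.1 + 1) x.2 ∧
        ¬ inR h ci cj ck x.1 (x.2 + 1)) with hM
    have h6 : L.card ≤ (N ∪ M).card := by
      refine Finset.card_le_card_of_injOn (fun x => (x.1 + 1, x.2 + 1)) ?_ ?_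
      · intro x hx
        have hx' := Finset.mem_filter.1 hx
        obtain ⟨-, h7, h8⟩ := hx'
        have hb1 : x.1 + 1 < B := by
          by_contra hb
          have := hA.z1 (x.1 + 1) (x.2 + 1) (by omega)
          omega
        have hb2 : x.2 + 1 < B := by
          by_contra hb
          have := hA.z2 (x.1 + 1) (x.2 + 1) (by omega)
          omega
        have hmem : (x.1 + 1, x.2 + 1) ∈ range B ×ˢ range B := by
          rw [Finset.mem_product]
          exact ⟨Finset.mem_range.2 hb1, Finset.mem_range.2 hb2⟩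
        have h9 := hR _ _ h8
        show (x.1 + 1, x.2 + 1) ∈ ((N ∪ M : Finset (ℕ × ℕ)) : Set (ℕ × ℕ))
        rw [Finset.mem_coe, Finset.mem_union]
        by_cases ha : inR h ci cj ck (x.1 + 1 + 1) (x.2 + 1)
        · left
          rw [hN, Finset.mem_filter]
          exact ⟨hmem, Or.inl ((hR _ _ ha).trans h9.symm), h7, h8⟩
        · by_cases hb : inR h ci cj ck (x.1 + 1) (x.2 + 1 + 1)
          · left
            rw [hN, Finset.mem_filter]
            exact ⟨hmem, Or.inr ((hR _ _ hb).trans h9.symm), h7, h8⟩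
          · right
            rw [hM, Finset.mem_filter]
            exact ⟨hmem, h8, ha, hb⟩
      · intro x _ y _ hxy
        simp only [Prod.mk.injEq] at hxy
        ext <;> omega
    have h10 : L.card ≤ N.card + M.card := h6.trans (Finset.card_union_le _ _)
    calc L.card * ck ≤ (N.card + M.card) * ck := Nat.mul_le_mul_right _ h10
      _ = N.card * ck + ck * M.card := by ring

end Pool.Agent.Helper67.W4
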