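import Pool.Agent.Helper21.W4.St4

/-! Module D2 of project W4: numerical data, mode 2. -/

set_option autoImplicit false

namespace Pool.Agent.Helper67.W4

open Pool.Agent.Helper21.W4 Finset

theorem ite_or (a b : ℕ) : ∃ i : ℕ, i = (if a < b then 1 else 0) ∧ (b ≤ a ∨ i = 1) := by
  by_cases h : a < b
  · exact ⟨1, by simp [h], Or.inr rfl⟩
  · exact ⟨0, by simp [h], Or.inl (by omega)⟩

theorem fl_or (A w w' : ℕ) (h : w ≤ A) (h' : w' ≤ A) :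
    (w < A ∧ w' < A ∧ fl A (max w w') = 2) ∨
      ((w = A ∨ w' = A) ∧ fl A (max w w') = -((A : ℤ) + 1)) := by
  unfold fl
  by_cases hA : max w w' < A
  · rw [if_pos hA]
    left
    rw [max_lt_iff] at hA
    exact ⟨hA.1, hA.2, rfl⟩
  · rw [if_neg hA]
    right
    refine ⟨?_, rfl⟩
    rw [max_lt_iff] at hA
    omega

theorem hD2 : StD2 := by
  intro x hB u1 u2 u3 hbk hL e12 e13 e23 h12 h13 h23
  obtain ⟨i12, hi12, ho12⟩ := ite_or x.w12 x.A1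
  obtain ⟨i21, hi21, ho21⟩ := ite_or x.w21 x.A2
  obtain ⟨i13, hi13, ho13⟩ := ite_or x.w13 x.A1
  obtain ⟨i31, hi31, ho31⟩ := ite_or x.w31 x.A3
  obtain ⟨i23, hi23, ho23⟩ := ite_or x.w23 x.A2
  obtain ⟨i32, hi32, ho32⟩ := ite_or x.w32 x.A3
  rw [← hi12, ← hi21] at h12
  rw [← hi13, ← hi31] at h13
  rw [← hi23, ← hi32] at h23
  have f1 := fl_or x.A1 x.w12 x.w13 hB.w12 hB.w13
  have f2 := fl_or x.A2 x.w21 x.w23 hB.w21 hB.w23
  have f3 := fl_or x.A3 x.w31 x.w32 hB.w31 hB.w32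
  have hE := hB.hE
  unfold X0 W1 W2 W3 at hE
  have k12 := hB.k12
  have k13 := hB.k13
  have k23 := hB.k23
  have x12 := hB.x12
  have x13 := hB.x13
  have x23 := hB.x23
  have g12 := hB.e12
  have g13 := hB.e13
  have g23 := hB.e23
  have A1 := hB.A1
  have A2 := hB.A2
  have A3 := hB.A3
  have w12 := hB.w12
  have w13 := hB.w13
  have w21 := hB.w21
  have w23 := hB.w23
  have w31 := hB.w31
  have w32 := hB.w32
  clear hi12 hi21 hi13 hi31 hi23 hi32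
  have hX : ((x.m : ℤ) - x.N) ≤ 1 - ((x.A1 : ℤ) + x.A2 + x.A3) + 3 * ((x.e12 : ℤ) + x.e13 + x.e23) +
      (fl x.A1 (max x.w12 x.w13) + fl x.A2 (max x.w21 x.w23) + fl x.A3 (max x.w31 x.w32)) := by
    omega
  have hR : ((x.m : ℤ) - x.N) ≤ 4 := by
    clear hE k12 k13 k23 x12 x13 x23
    rcases f1 with ⟨a1, b1, c1⟩ | ⟨a1, c1⟩ <;> rcases f2 with ⟨a2, b2, c2⟩ | ⟨a2, c2⟩ <;>
      rcases f3 with ⟨a3, b3, c3⟩ | ⟨a3, c3⟩ <;> rw [c1, c2, c3] at hX <;> omega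
  have hkm : (x.κ : ℤ) ≤ x.m := by exact_mod_cast hB.km
  have hk0 : (0 : ℤ) ≤ x.κ := by positivity
  unfold TgtN
  nlinarith

end Pool.Agent.Helper67.W4
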